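import Pool.Agent.Helper28.T5.StN

/-!
# Projects T5, T7, module NR-H: the relation for every matrix (core, no level)
-/

set_option autoImplicit false

open Pool.Agent.Helper14.CV (G0 Homog EqC act StFar)
open Pool.Agent.Helper28.WK
open Pool.Agent.Helper14.WK

namespace Pool.Agent.Helper51.T5N

/-- The pairing of `Ψ` at `(r, q)` with `(q X - r)^(2a)`. -/
noncomputable def hP (a : ℕ) (Ψ : ℤ → ℤ → ℕ → ℂ) (r q : ℤ) : ℂ :=
  ∑ t ∈ Finset.range (2 * a + 1), ((2 * a).choose t : ℂ) * (-(r : ℂ)) ^ (2 * a - t) * (q : ℂ) ^ t *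
    Ψ r q t

private theorem hP_neg (a : ℕ) (Ψ : ℤ → ℤ → ℕ → ℂ)
    (hom : ∀ i : ℕ, i ≤ 2 * a → Homog (cp Ψ i)) (r q : ℤ) (h : r ≠ 0 ∨ q ≠ 0) :
    hP a Ψ (-r) (-q) = hP a Ψ r q := by
  unfold hP
  refine Finset.sum_congr rfl fun t ht => ?_
  have ht' : t ≤ 2 * a := by
    have := Finset.mem_range.1 ht
    omega
  have h1 : Ψ (-r) (-q) t = Ψ r q t := by
    have := hom t ht' (-1) r q (by norm_num) h
    simpa [cp] using this
  rw [h1]
  push_cast
  have h2 : (- -(r : ℂ)) ^ (2 * a - t) * (-(q : ℂ)) ^ t =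
      (-(r : ℂ)) ^ (2 * a - t) * (q : ℂ) ^ t := by
    rw [neg_pow (-(r : ℂ)) (2 * a - t), neg_pow (q : ℂ) t]
    have h3 : (-1 : ℂ) ^ (2 * a - t) * (-1) ^ t = 1 := by
      rw [← pow_add, Nat.sub_add_cancel ht', pow_mul]
      norm_num
    calc (-1 : ℂ) ^ (2 * a - t) * (-(r : ℂ)) ^ (2 * a - t) * ((-1) ^ t * (q : ℂ) ^ t)
        = ((-1 : ℂ) ^ (2 * a - t) * (-1) ^ t) * ((-(r : ℂ)) ^ (2 * a - t) * (q : ℂ) ^ t) := by ring
      _ = _ := by rw [h3, one_mul]
  calc ((2 * a).choose t : ℂ) * (- -(r : ℂ)) ^ (2 * a - t) * (-(q : ℂ)) ^ t * Ψ r q t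
      = ((2 * a).choose t : ℂ) * ((- -(r : ℂ)) ^ (2 * a - t) * (-(q : ℂ)) ^ t) * Ψ r q t := by ring
    _ = _ := by rw [h2]; ring

private theorem binom (n : ℕ) (A B : Polynomial ℤ) (u v : ℤ) :
    (Polynomial.C u * A + Polynomial.C v * B) ^ n = ∑ t ∈ Finset.range (n + 1),
      ((n.choose t : ℤ) * v ^ (n - t) * u ^ t) • (A ^ t * B ^ (n - t)) := by
  rw [add_pow]
  refine Finset.sum_congr rfl fun t _ => ?_
  rw [Polynomial.smul_eq_C_mul, mul_pow, mul_pow]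
  simp only [map_mul, map_pow, map_natCast]
  ring

private theorem pull (a : ℕ) (Ψ : ℤ → ℤ → ℕ → ℂ) (α β γ δ r q : ℤ) :
    ∑ t ∈ Finset.range (2 * a + 1),
      (((2 * a).choose t : ℤ) * (-(α * r + β * q)) ^ (2 * a - t) * (γ * r + δ * q) ^ t) •
        pr Ψ ((Polynomial.C α * Polynomial.X + Polynomial.C β) ^ t *
          (Polynomial.C γ * Polynomial.X + Polynomial.C δ) ^ (2 * a - t)) r q =
    (((α * δ - β * γ : ℤ) : ℂ)) ^ (2 * a) * hP a Ψ r q := by
  have e1 : ∑ t ∈ Finset.range (2 * a + 1),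
      (((2 * a).choose t : ℤ) * (-(α * r + β * q)) ^ (2 * a - t) * (γ * r + δ * q) ^ t) •
        pr Ψ ((Polynomial.C α * Polynomial.X + Polynomial.C β) ^ t *
          (Polynomial.C γ * Polynomial.X + Polynomial.C δ) ^ (2 * a - t)) r q =
      pr Ψ ((Polynomial.C (γ * r + δ * q) * (Polynomial.C α * Polynomial.X + Polynomial.C β) +
        Polynomial.C (-(α * r + β * q)) * (Polynomial.C γ * Polynomial.X + Polynomial.C δ)) ^ (2 * a)) r q := by
    rw [binom, pr_sum]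
    simp only [pr_smul, Finset.sum_apply, Pi.smul_apply]
  have e2 : Polynomial.C (γ * r + δ * q) * (Polynomial.C α * Polynomial.X + Polynomial.C β) +
        Polynomial.C (-(α * r + β * q)) * (Polynomial.C γ * Polynomial.X + Polynomial.C δ) =
      Polynomial.C (α * δ - β * γ) *
        (Polynomial.C q * (Polynomial.X : Polynomial ℤ) + Polynomial.C (-r) * 1) := by
    simp only [map_add, map_mul, map_neg, map_sub]
    ring
  have e3 : pr Ψ ((Polynomial.C q * (Polynomial.X : Polynomial ℤ) + Polynomial.C (-r) * 1) ^ (2 * a)) r q =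
      hP a Ψ r q := by
    rw [binom, pr_sum]
    simp only [pr_smul, Finset.sum_apply, Pi.smul_apply, one_pow, mul_one, pr_X_pow]
    unfold hP
    refine Finset.sum_congr rfl fun t _ => ?_
    rw [zsmul_eq_mul]
    push_cast
    rfl
  rw [e1, e2, mul_pow, ← map_pow, pr_C_mul]
  simp only [Pi.smul_apply]
  rw [e3, zsmul_eq_mul]
  push_cast
  rfl

private theorem natDeg (a : ℕ) (e : ℕ → ℂ) (α β γ δ : ℂ) :
    (∑ t ∈ Finset.range (2 * a + 1), Polynomial.C (e t) *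
      ((-(Polynomial.C α * Polynomial.X + Polynomial.C β)) ^ (2 * a - t) *
        (Polynomial.C γ * Polynomial.X + Polynomial.C δ) ^ t)).natDegree ≤ 2 * a := by
  refine Polynomial.natDegree_sum_le_of_forall_le _ _ fun t ht => ?_
  have ht' : t ≤ 2 * a := by
    have := Finset.mem_range.1 ht
    omega
  refine (Polynomial.natDegree_C_mul_le _ _).trans ?_
  refine Polynomial.natDegree_mul_le.trans ?_
  have h1 : ((-(Polynomial.C α * Polynomial.X + Polynomial.C β)) ^ (2 * a - t) : Polynomial ℂ).natDegree ≤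
      (2 * a - t) * 1 := by
    refine Polynomial.natDegree_pow_le_of_le _ ?_
    rw [Polynomial.natDegree_neg]
    exact Polynomial.natDegree_linear_le
  have h2 : ((Polynomial.C γ * Polynomial.X + Polynomial.C δ) ^ t : Polynomial ℂ).natDegree ≤ t * 1 :=
    Polynomial.natDegree_pow_le_of_le _ Polynomial.natDegree_linear_le
  omega

/-- The relation for a general matrix. -/
theorem nrCore (a : ℕ) (g : ℝ → ℂ) (hg : Continuous g) (Ψ : ℤ → ℤ → ℕ → ℂ) (K : ℂ) (hK : K ≠ 0)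
    (α β γ δ : ℤ) (hD : α * δ - β * γ ≠ 0) (hom : ∀ i : ℕ, i ≤ 2 * a → Homog (cp Ψ i))
    (eqv : ∀ i : ℕ, i ≤ 2 * a → EqC (((α * δ - β * γ) ^ a : ℤ) • act α β γ δ (cp Ψ i))
      (pr Ψ ((Polynomial.C α * Polynomial.X + Polynomial.C β) ^ i *
        (Polynomial.C γ * Polynomial.X + Polynomial.C δ) ^ (2 * a - i))))
    (hNS : ∀ r q : ℤ, 0 < q → hP a Ψ r q = K * (q : ℂ) ^ (2 * a) * g ((r : ℝ) / (q : ℝ))) :
    ∃ P : Polynomial ℂ, P.natDegree ≤ 2 * a ∧
      ∀ x : ℝ, (γ : ℝ) * x + δ ≠ 0 → ((γ : ℂ) * (x : ℂ) + δ) ^ (2 * a) *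
          g (((α : ℝ) * x + β) / ((γ : ℝ) * x + δ)) =
        ((α * δ - β * γ : ℤ) : ℂ) ^ a * g x + P.eval (x : ℂ) := by
  -- the constants
  have hS0 : ∀ t : ℕ, ∃ c : ℂ, t ≤ 2 * a → ∀ x y : ℤ, (x ≠ 0 ∨ y ≠ 0) →
      ((α * δ - β * γ) ^ a : ℤ) • Ψ (α * x + β * y) (γ * x + δ * y) t =
        pr Ψ ((Polynomial.C α * Polynomial.X + Polynomial.C β) ^ t *
          (Polynomial.C γ * Polynomial.X + Polynomial.C δ) ^ (2 * a - t)) x y + c := by
    intro t
    by_cases ht : t ≤ 2 * a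
    · obtain ⟨c, hc⟩ := eqv t ht
      exact ⟨c, fun _ x y hxy => hc x y hxy⟩
    · exact ⟨0, fun h => absurd h ht⟩
  choose c hc using hS0
  have hDC : ((α * δ - β * γ : ℤ) : ℂ) ≠ 0 := Int.cast_ne_zero.2 hD
  set D : ℂ := ((α * δ - β * γ : ℤ) : ℂ) with hDd
  -- the relation for vectors
  have key : ∀ r q : ℤ, (r ≠ 0 ∨ q ≠ 0) →
      D ^ a * hP a Ψ (α * r + β * q) (γ * r + δ * q) = D ^ (2 * a) * hP a Ψ r q +
        ∑ t ∈ Finset.range (2 * a + 1), ((2 * a).choose t : ℂ) *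
          (-((α : ℂ) * r + β * q)) ^ (2 * a - t) * ((γ : ℂ) * r + δ * q) ^ t * c t := by
    intro r q hrq
    have h1 := pull a Ψ α β γ δ r q
    rw [← hDd] at h1
    rw [← h1, ← Finset.sum_add_distrib]
    unfold hP
    rw [Finset.mul_sum]
    refine Finset.sum_congr rfl fun t ht => ?_
    have ht' : t ≤ 2 * a := by
      have := Finset.mem_range.1 ht
      omega
    have h2 := hc t ht' r q hrq
    rw [zsmul_eq_mul] at h2
    have h3 : (((α * δ - β * γ) ^ a : ℤ) : ℂ) = D ^ a := by rw [hDd]; push_cast; rfl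
    rw [h3] at h2
    have h4 : pr Ψ ((Polynomial.C α * Polynomial.X + Polynomial.C β) ^ t *
          (Polynomial.C γ * Polynomial.X + Polynomial.C δ) ^ (2 * a - t)) r q =
        D ^ a * Ψ (α * r + β * q) (γ * r + δ * q) t - c t := by rw [h2]; ring
    rw [h4, zsmul_eq_mul]
    push_cast
    ring
  have hP2 : ∀ r q : ℤ, q ≠ 0 → hP a Ψ r q = K * (q : ℂ) ^ (2 * a) * g ((r : ℝ) / (q : ℝ)) := by
    intro r q hq
    rcases lt_or_gt_of_ne hq with hq' | hq'
    · rw [← hP_neg a Ψ hom r q (Or.inr hq), hNS (-r) (-q) (by omega)]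
      have e1 : ((-q : ℤ) : ℂ) ^ (2 * a) = (q : ℂ) ^ (2 * a) := by
        push_cast
        rw [neg_pow, pow_mul (-1 : ℂ)]
        norm_num
      have e2 : ((-r : ℤ) : ℝ) / ((-q : ℤ) : ℝ) = (r : ℝ) / (q : ℝ) := by
        push_cast
        rw [neg_div_neg_eq]
      rw [e1, e2]
    · exact hNS r q hq'
  have hKD : K * D ^ a ≠ 0 := mul_ne_zero hK (pow_ne_zero _ hDC)
  refine ⟨∑ t ∈ Finset.range (2 * a + 1), Polynomial.C ((K * D ^ a)⁻¹ * (((2 * a).choose t : ℂ) * c t)) *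
      ((-(Polynomial.C (α : ℂ) * Polynomial.X + Polynomial.C (β : ℂ))) ^ (2 * a - t) *
        (Polynomial.C (γ : ℂ) * Polynomial.X + Polynomial.C (δ : ℂ)) ^ t), natDeg a _ _ _ _ _, ?_⟩
  set P : Polynomial ℂ := ∑ t ∈ Finset.range (2 * a + 1),
      Polynomial.C ((K * D ^ a)⁻¹ * (((2 * a).choose t : ℂ) * c t)) *
      ((-(Polynomial.C (α : ℂ) * Polynomial.X + Polynomial.C (β : ℂ))) ^ (2 * a - t) *
        (Polynomial.C (γ : ℂ) * Polynomial.X + Polynomial.C (δ : ℂ)) ^ t) with hPd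
  have hPe : ∀ x : ℂ, P.eval x = (K * D ^ a)⁻¹ * ∑ t ∈ Finset.range (2 * a + 1),
      ((2 * a).choose t : ℂ) * (-((α : ℂ) * x + β)) ^ (2 * a - t) * ((γ : ℂ) * x + δ) ^ t * c t := by
    intro x
    rw [hPd, Polynomial.eval_finsetSum, Finset.mul_sum]
    refine Finset.sum_congr rfl fun t _ => ?_
    simp only [Polynomial.eval_mul, Polynomial.eval_C, Polynomial.eval_pow, Polynomial.eval_neg,
      Polynomial.eval_add, Polynomial.eval_X]
    ring
  -- rational points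
  have hrat : ∀ r q : ℤ, 0 < q → (γ : ℝ) * ((r : ℝ) / (q : ℝ)) + δ ≠ 0 →
      ((γ : ℂ) * (((r : ℝ) / (q : ℝ) : ℝ) : ℂ) + δ) ^ (2 * a) *
          g (((α : ℝ) * ((r : ℝ) / (q : ℝ)) + β) / ((γ : ℝ) * ((r : ℝ) / (q : ℝ)) + δ)) =
        D ^ a * g ((r : ℝ) / (q : ℝ)) + P.eval ((((r : ℝ) / (q : ℝ) : ℝ)) : ℂ) := by
    intro r q hq hne
    have hqR : (q : ℝ) ≠ 0 := by exact_mod_cast hq.ne'
    have hqC : (q : ℂ) ≠ 0 := by exact_mod_cast hq.ne'
    have hq' : γ * r + δ * q ≠ 0 := by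
      intro h
      apply hne
      have h' : (γ : ℝ) * r + δ * q = 0 := by exact_mod_cast h
      field_simp
      linarith
    have hq'R : ((γ * r + δ * q : ℤ) : ℝ) ≠ 0 := by exact_mod_cast hq'
    have h1 := key r q (Or.inr hq.ne')
    rw [hP2 _ _ hq', hNS r q hq] at h1
    have e1 : ((α * r + β * q : ℤ) : ℝ) / ((γ * r + δ * q : ℤ) : ℝ) =
        ((α : ℝ) * ((r : ℝ) / (q : ℝ)) + β) / ((γ : ℝ) * ((r : ℝ) / (q : ℝ)) + δ) := by
      have e3 : (α : ℝ) * ((r : ℝ) / (q : ℝ)) + β = ((α * r + β * q : ℤ) : ℝ) / (q : ℝ) := by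
        push_cast
        field_simp
      have e4 : (γ : ℝ) * ((r : ℝ) / (q : ℝ)) + δ = ((γ * r + δ * q : ℤ) : ℝ) / (q : ℝ) := by
        push_cast
        field_simp
      rw [e3, e4, div_div_div_cancel_right₀ hqR]
    rw [e1] at h1
    set G1 : ℂ := g (((α : ℝ) * ((r : ℝ) / (q : ℝ)) + β) / ((γ : ℝ) * ((r : ℝ) / (q : ℝ)) + δ)) with hG1
    set G2 : ℂ := g ((r : ℝ) / (q : ℝ)) with hG2
    have hxc : ((((r : ℝ) / (q : ℝ) : ℝ)) : ℂ) = (r : ℂ) / (q : ℂ) := by push_cast; rfl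
    rw [hxc, hPe]
    have e5 : (γ : ℂ) * ((r : ℂ) / (q : ℂ)) + δ = ((γ : ℂ) * r + δ * q) / q := by field_simp
    have e6 : (α : ℂ) * ((r : ℂ) / (q : ℂ)) + β = ((α : ℂ) * r + β * q) / q := by field_simp
    have e7 : ∑ t ∈ Finset.range (2 * a + 1), ((2 * a).choose t : ℂ) *
          (-((α : ℂ) * ((r : ℂ) / (q : ℂ)) + β)) ^ (2 * a - t) *
          ((γ : ℂ) * ((r : ℂ) / (q : ℂ)) + δ) ^ t * c t =
        ((q : ℂ) ^ (2 * a))⁻¹ * ∑ t ∈ Finset.range (2 * a + 1), ((2 * a).choose t : ℂ) *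
          (-((α : ℂ) * r + β * q)) ^ (2 * a - t) * ((γ : ℂ) * r + δ * q) ^ t * c t := by
      rw [Finset.mul_sum]
      refine Finset.sum_congr rfl fun t ht => ?_
      have ht' : t ≤ 2 * a := by
        have := Finset.mem_range.1 ht
        omega
      have e8 : (q : ℂ) ^ (2 * a) = (q : ℂ) ^ (2 * a - t) * (q : ℂ) ^ t := by
        rw [← pow_add, Nat.sub_add_cancel ht']
      rw [e5, e6, e8, ← neg_div, div_pow, div_pow]
      field_simp
    rw [e7, e5, div_pow]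
    set W : ℂ := ∑ t ∈ Finset.range (2 * a + 1), ((2 * a).choose t : ℂ) *
          (-((α : ℂ) * r + β * q)) ^ (2 * a - t) * ((γ : ℂ) * r + δ * q) ^ t * c t with hW
    have hq2 : (q : ℂ) ^ (2 * a) ≠ 0 := pow_ne_zero _ hqC
    have h5 : ((γ * r + δ * q : ℤ) : ℂ) = (γ : ℂ) * r + δ * q := by push_cast; ring
    rw [h5] at h1
    have hD2 : D ^ (2 * a) = D ^ a * D ^ a := by rw [← pow_add]; congr 1; ring
    rw [hD2] at h1
    have hDa : D ^ a ≠ 0 := pow_ne_zero _ hDC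
    field_simp
    linear_combination h1
  -- continuity
  set S : Set ℝ := {x : ℝ | (γ : ℝ) * x + δ ≠ 0} with hSd
  have hSo : IsOpen S := isOpen_ne_fun (by fun_prop) continuous_const
  have hsub : S ⊆ closure (S ∩ Set.range ((↑) : ℚ → ℝ)) :=
    (Rat.denseRange_cast (𝕜 := ℝ)).open_subset_closure_inter hSo
  have hEq : Set.EqOn (fun x : ℝ => ((γ : ℂ) * (x : ℂ) + δ) ^ (2 * a) *
        g (((α : ℝ) * x + β) / ((γ : ℝ) * x + δ)))
      (fun x : ℝ => D ^ a * g x + P.eval (x : ℂ)) S := by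
    refine Set.EqOn.of_subset_closure (s := S ∩ Set.range ((↑) : ℚ → ℝ)) ?_ ?_ ?_
      Set.inter_subset_left hsub
    · rintro x ⟨hx0, y, rfl⟩
      have e : ((y : ℚ) : ℝ) = ((y.num : ℤ) : ℝ) / (((y.den : ℤ)) : ℝ) := by
        rw [Rat.cast_def]
        push_cast
        rfl
      have h := hrat y.num y.den (by exact_mod_cast y.den_pos) (by rw [← e]; exact hx0)
      simp only
      rw [e]
      exact h
    · refine ContinuousOn.mul (by fun_prop) ?_
      refine hg.comp_continuousOn ?_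
      exact ContinuousOn.div (by fun_prop) (by fun_prop) (fun x hx => hx)
    · refine (continuous_const.mul hg).continuousOn.add ?_
      exact (P.continuous.comp Complex.continuous_ofReal).continuousOn
  intro x hx
  exact hEq hx

end Pool.Agent.Helper51.T5N
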