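import Pool.Agent.Helper28.T5.StN
import Pool.Agent.Helper51.T5N.NRC

/-!
# Project T5, module NR-H: the relation of `Gp` for every matrix

The core is in `Pool/Agent/Helper51/T5N/NRC.lean`.
-/

set_option autoImplicit false

open Pool.Agent.Helper14.CV (G0 Homog EqC act StFar)
open Pool.Agent.Helper28.WK
open Pool.Agent.Helper14.WK

namespace Pool.Agent.Helper51.T5N

open Pool.Agent.Helper28.LV Pool.Agent.Helper28.T5

private theorem gp_cont (b1 : SKB1) (b3 : SKB3) (N p a : ℕ) (hne : NeZero N)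
    (f : CuspForm (G0 N) (2 * a + 2)) (hp : p.Prime) (ha : 1 ≤ a) :
    Continuous (Gp p a f) := by
  obtain ⟨-, hc⟩ := b1 N hne a f (by omega)
  obtain ⟨-, -, hper⟩ := b3 N hne a f (by omega)
  have hper' : Function.Periodic (HK a f) 1 := hper
  obtain ⟨C, hC⟩ : ∃ C : ℝ, ∀ x : ℝ, ‖HK a f x‖ ≤ C := by
    obtain ⟨C, hC⟩ := (isCompact_Icc (a := (0 : ℝ)) (b := 1)).exists_bound_of_continuousOn
      hc.continuousOn
    refine ⟨C, fun x => ?_⟩
    obtain ⟨y, hy, hxy⟩ := hper'.exists_mem_Ico₀ one_pos x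
    rw [hxy]
    exact hC y ⟨hy.1, hy.2.le⟩
  have hC0 : 0 ≤ C := (norm_nonneg _).trans (hC 0)
  refine continuous_tsum (u := fun s : ℕ => (1 / 2 : ℝ) ^ s * (2 * C)) ?_ ?_ ?_
  · intro s
    refine continuous_const.mul ?_
    exact (hc.comp (by fun_prop)).add (hc.comp (by fun_prop))
  · exact (summable_geometric_of_lt_one (by norm_num) (by norm_num)).mul_right _
  · intro s x
    rw [norm_mul, norm_inv, norm_pow, Complex.norm_natCast]
    have h1 : ((p : ℝ) ^ (a * s))⁻¹ ≤ (1 / 2 : ℝ) ^ s := by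
      have hp2 : (2 : ℝ) ≤ p := by exact_mod_cast hp.two_le
      have h2 : (2 : ℝ) ^ s ≤ (p : ℝ) ^ (a * s) := by
        calc (2 : ℝ) ^ s ≤ (p : ℝ) ^ s := pow_le_pow_left₀ (by norm_num) hp2 s
          _ ≤ (p : ℝ) ^ (a * s) := pow_le_pow_right₀ (by linarith) (by nlinarith)
      rw [one_div, inv_pow]
      exact inv_anti₀ (by positivity) h2
    have h3 : ‖HK a f ((p : ℝ) ^ s * x) + HK a f (-((p : ℝ) ^ s * x))‖ ≤ 2 * C :=
      (norm_add_le _ _).trans (by linarith [hC ((p : ℝ) ^ s * x), hC (-((p : ℝ) ^ s * x))])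
    exact mul_le_mul h1 h3 (norm_nonneg _) (by positivity)

/-- MODULE NR-H. -/
theorem hNR : ZNR := by
  intro b1 b3 ns N p a hne κ f I Ψ hκ hp hev ha hI hinf hhom hL α β γ δ hT _
  exact Pool.Agent.Helper51.T5N.nrCore a (Gp p a f) (gp_cont b1 b3 N p a hne f hp ha) Ψ
    ((κ : ℂ) * Complex.I) (mul_ne_zero (Int.cast_ne_zero.2 hκ) Complex.I_ne_zero) α β γ δ hT.det_ne
    hL.hom (hL.eqv α β γ δ hT)
    (fun r q hq => ns N p a hne κ f I Ψ hp hev ha hI hinf hhom hL r q hq)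

end Pool.Agent.Helper51.T5N
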